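import Mathlib
import Pool.Agent.X121.WN.Single

/-!
# The digits of the square roots of most integers, in all bases at once

For all integers `n ∈ (N, 2 N]` but a proportion `exp (-c (log N) ^ (1 / 8))` the digits of `√n` (or of
`n ^ θ` for any fixed `θ > 0` which is not an integer) up to the place `(log N) ^ (9 / 8) / log b` are
uniformly distributed up to `ε` in ALL windows of at least `(log N) ^ (1 / 8)` consecutive places and in
ALL bases `b ≤ exp (c (log N) ^ (1 / 8))` at the same time.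

The joint law of `(log N) ^ (1 / 8)` digits in one base is known from my earlier work (exponential sums
with local approximations by polynomials of high degree, Vinogradov's mean value theorem with
explicit constants, trigonometric majorants). Here windows are cut into chunks of independent
digits, for which large deviations are exponentially rare, so that a union bound over all bases, all
windows and all intervals is possible.
-/

set_option autoImplicit false

open Real

namespace Pool.Agent.Results.MP_5b6025_nt.AllBasesAtOnce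

/-- The number of `j`, `i ≤ j < i + W`, for which the fractional part of `b ^ j x` lies in `[u, v)`. -/
noncomputable def count (b : ℕ) (x : ℝ) (i W : ℕ) (u v : ℝ) : ℕ :=
  {j : ℕ | i ≤ j ∧ j < i + W ∧ u ≤ Int.fract ((b : ℝ) ^ j * x) ∧ Int.fract ((b : ℝ) ^ j * x) < v}.ncard

/-- **All bases and all windows at once.** Let `θ > 0` be not an integer, for example `θ = 1 / 2`, let
`0 < η ≤ 1` and `ε > 0`. There are `c > 0` and `N₀` such that for all `N ≥ N₀`, `N ^ η ≤ H ≤ N` and all
real `ω`, `y` with `1 ≤ |ω| ≤ exp ((log N) ^ (9 / 8))`, all but at most `exp (-c (log N) ^ (1 / 8)) H` of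
the integers `n ∈ (N, N + H]` have the following property, with `x = ω n ^ θ + y`: for ALL bases
`2 ≤ b ≤ exp (c (log N) ^ (1 / 8))`, ALL windows `i ≤ j < i + W` with `W ≥ (log N) ^ (1 / 8)` and
`b ^ (i + W) ≤ exp ((log N) ^ (9 / 8))`, and ALL `0 ≤ u ≤ v ≤ 1`, the number of `j` in the window for
which the fractional part of `b ^ j x` lies in `[u, v)` is `(v - u) W` up to an error of at most `ε W`;
here either `b ^ i ≥ N ^ (8 / η)`, or `H` is at least `N ^ (1 / 2 + η)` and `N ^ (1 - θ + η)`. -/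
theorem result {θ : ℝ} (hθ0 : 0 < θ) (hθ : ∀ a : ℕ, θ ≠ a) {η : ℝ} (hη : 0 < η) (hη1 : η ≤ 1)
    {ε : ℝ} (hε : 0 < ε) :
    ∃ c : ℝ, 0 < c ∧ ∃ N₀ : ℕ, ∀ N H : ℕ, N₀ ≤ N → (N : ℝ) ^ η ≤ H → H ≤ N → ∀ ω y : ℝ,
      1 ≤ |ω| → |ω| ≤ exp (log N ^ (9 / 8 : ℝ)) →
      ({n : ℕ | N < n ∧ n ≤ N + H ∧
        ¬ ∀ b : ℕ, 2 ≤ b → (b : ℝ) ≤ exp (c * log N ^ (1 / 8 : ℝ)) →
          ∀ i W : ℕ, log N ^ (1 / 8 : ℝ) ≤ W → ((i : ℝ) + W) * log b ≤ log N ^ (9 / 8 : ℝ) →
          (8 / η * log N ≤ i * log b ∨ ((N : ℝ) ^ (1 / 2 + η) ≤ H ∧ (N : ℝ) ^ (1 - θ + η) ≤ H)) →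
          ∀ u v : ℝ, 0 ≤ u → u ≤ v → v ≤ 1 →
          |(count b (ω * (n : ℝ) ^ θ + y) i W u v : ℝ) - (v - u) * W| ≤ ε * W}.ncard : ℝ) ≤
        exp (-(c * log N ^ (1 / 8 : ℝ))) * H := by
  classical
  obtain ⟨c, hc0, -, N₀, h⟩ := Pool.Agent.X121.WN.single hθ0 hθ hη hη1 (ε := min ε 1)
    (lt_min hε one_pos) (min_le_right _ _)
  refine ⟨c, hc0, N₀, fun N H hN hH1 hH2 ω y hω1 hω2 => ?_⟩
  obtain ⟨P, hP⟩ : ∃ P : ℕ → Prop, P = fun n : ℕ => ∀ b : ℕ, 2 ≤ b → (b : ℝ) ≤ exp (c * log N ^ (1 / 8 : ℝ)) →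
          ∀ i W : ℕ, log N ^ (1 / 8 : ℝ) ≤ W → ((i : ℝ) + W) * log b ≤ log N ^ (9 / 8 : ℝ) →
          (8 / η * log N ≤ i * log b ∨ ((N : ℝ) ^ (1 / 2 + η) ≤ H ∧ (N : ℝ) ^ (1 - θ + η) ≤ H)) →
          ∀ u v : ℝ, 0 ≤ u → u ≤ v → v ≤ 1 →
          |(count b (ω * (n : ℝ) ^ θ + y) i W u v : ℝ) - (v - u) * W| ≤ ε * W := ⟨_, rfl⟩
  have e : {n : ℕ | N < n ∧ n ≤ N + H ∧ ¬ P n} = ((Finset.Ioc N (N + H)).filter fun n => ¬ P n : Finset ℕ) := by
    ext n
    simp only [Set.mem_ofPred_eq, Finset.coe_filter, Finset.mem_Ioc]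
    tauto
  have h1 := h N H hN hH1 hH2 ω y hω1 hω2 ((Finset.Ioc N (N + H)).filter fun n => ¬ P n)
    (Finset.filter_subset _ _) (by
      intro n hn
      have hn2 := (Finset.mem_filter.1 hn).2
      rw [hP] at hn2
      simp only [not_forall] at hn2
      obtain ⟨b, hb2, hbe, i, W, hW, hiW, hor, u, v, hu, huv, hv, hnot⟩ := hn2
      refine ⟨b, hb2, hbe, fun hgood => hnot ?_⟩
      have hlogb : 0 ≤ log (b : ℝ) := log_natCast_nonneg b
      have h2 := hgood i W hW (by
        intro m hm1 hm2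
        refine ⟨?_, ?_⟩
        · refine le_trans ?_ hiW
          have : (m : ℝ) ≤ (i : ℝ) + W := by exact_mod_cast hm2.le
          exact mul_le_mul_of_nonneg_right this hlogb
        · rcases hor with h3 | h3
          · left
            refine h3.trans ?_
            have : (i : ℝ) ≤ m := by exact_mod_cast hm1
            exact mul_le_mul_of_nonneg_right this hlogb
          · exact Or.inr h3) (fun _ => u) (fun _ => v) (fun _ => hu) (fun _ => huv) (fun _ => hv)
      have e1 : count b (ω * (n : ℝ) ^ θ + y) i W u v = ((Finset.range W).filter fun j => ∀ t : Unit,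
          u ≤ Int.fract ((b : ℝ) ^ (i + j) * (ω * (n : ℝ) ^ θ + y)) ∧
          Int.fract ((b : ℝ) ^ (i + j) * (ω * (n : ℝ) ^ θ + y)) < v).card := by
        unfold count
        have e2 : {j : ℕ | i ≤ j ∧ j < i + W ∧ u ≤ Int.fract ((b : ℝ) ^ j * (ω * (n : ℝ) ^ θ + y)) ∧
            Int.fract ((b : ℝ) ^ j * (ω * (n : ℝ) ^ θ + y)) < v} =
            ((((Finset.range W).filter fun j => ∀ t : Unit,
            u ≤ Int.fract ((b : ℝ) ^ (i + j) * (ω * (n : ℝ) ^ θ + y)) ∧
            Int.fract ((b : ℝ) ^ (i + j) * (ω * (n : ℝ) ^ θ + y)) < v).image (fun j => i + j) : Finset ℕ) : Set ℕ) := by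
          ext j
          simp only [Set.mem_ofPred_eq, Finset.coe_image, Finset.coe_filter, Finset.mem_range, Set.mem_image,
            forall_const]
          constructor
          · rintro ⟨a1, a2, a3⟩
            have a4 : i + (j - i) = j := by omega
            exact ⟨j - i, ⟨by omega, by rw [a4]; exact a3⟩, a4⟩
          · rintro ⟨j', ⟨a1, a3⟩, rfl⟩
            exact ⟨by omega, by omega, a3⟩
        rw [e2, Set.ncard_coe_finset, Finset.card_image_of_injective _ (fun a a' h => by simpa using h)]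
      rw [e1]
      have h3 : ∏ _t : Unit, (v - u) = v - u := by simp
      rw [h3] at h2
      refine h2.trans ?_
      exact mul_le_mul_of_nonneg_right (min_le_left _ _) (Nat.cast_nonneg _))
  rw [hP] at e h1
  beta_reduce at e h1
  rw [e, Set.ncard_coe_finset]
  exact h1

end Pool.Agent.Results.MP_5b6025_nt.AllBasesAtOnce
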