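import Mathlib
import Pool.Agent.X1.NfaLin2

/-!
# Small automata and all expansions of an algebraic number with bounded integer digits

Let `x` be a real irrational algebraic number, `b ≥ 2` and `D` a natural number.  Besides its usual
expansion, `x` has in general uncountably many expansions `x = ∑ a_i b^(-i-1)` with integers `a_i` of
absolute value at most `D` (signed digits, redundant number systems).  All of them are complex for
finite automata, uniformly: an automaton which accepts the first `N` digits of such an expansion and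
no other word of length `N` has at least `N exp (-ε √(log N))` states, and an automaton with at most
`N^(1-δ)` states which accepts a word which agrees with such an expansion up to `C log N` errors
accepts at least `exp (C (log N)^2)` words of length `N`.
-/

set_option autoImplicit false

namespace Pool.Agent.Results.MP_5b6025_nt.AutomataForAllExpansions

open Finset

/-- `x = a_0 / b + a_1 / b^2 + a_2 / b^3 + …` is an expansion of `x` in base `b` with integer digits
`a_i` of absolute value at most `D` -/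
def IsExpansion (b D : ℕ) (x : ℝ) (a : ℕ → ℤ) : Prop :=
  (∀ i, |a i| ≤ D) ∧ HasSum (fun i => (a i : ℝ) / (b : ℝ) ^ (i + 1)) x

/-- the number (possibly infinite, since the alphabet is infinite) of words of length `N` accepted
by the automaton -/
noncomputable def numAccepted {σ : Type} (M : NFA ℤ σ) (N : ℕ) : ℕ∞ :=
  {w : List ℤ | w ∈ M.accepts ∧ w.length = N}.encard

/-- the integer with digits `a_0, …, a_(m-1)` in base `b` -/
def head (b : ℕ) (a : ℕ → ℤ) : ℕ → ℤ
  | 0 => 0
  | m + 1 => b * head b a m + a m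

lemma head_eq {b : ℕ} (hb : 2 ≤ b) (a : ℕ → ℤ) (m : ℕ) :
    (head b a m : ℝ) = (b : ℝ) ^ m * ∑ i ∈ range m, (a i : ℝ) / (b : ℝ) ^ (i + 1) := by
  have hb0 : (b : ℝ) ≠ 0 := by
    have : (2 : ℝ) ≤ b := by exact_mod_cast hb
    linarith
  induction m with
  | zero => simp [head]
  | succ m ih =>
    rw [head, sum_range_succ]
    push_cast
    rw [ih, mul_add]
    field_simp
    ring

lemma head_close {b D : ℕ} (hb : 2 ≤ b) {x : ℝ} {a : ℕ → ℤ} (h : IsExpansion b D x a) (m : ℕ) :
    |(b : ℝ) ^ m * x - head b a m| ≤ D := by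
  have hb2 : (2 : ℝ) ≤ b := by exact_mod_cast hb
  have hb0 : (0 : ℝ) < b := by linarith
  obtain ⟨h1, h2⟩ := h
  have h3 := (hasSum_nat_add_iff' m).2 h2
  have h4 : HasSum (fun i => (b : ℝ) ^ m * ((a (i + m) : ℝ) / (b : ℝ) ^ (i + m + 1)))
      ((b : ℝ) ^ m * x - head b a m) := by
    have h5 := h3.mul_left ((b : ℝ) ^ m)
    rw [mul_sub, ← head_eq hb a m] at h5
    exact h5
  have h6 : HasSum (fun i => (D : ℝ) * (1 / 2) * (1 / 2) ^ i) ((D : ℝ) * (1 / 2) * (1 - 1 / 2)⁻¹) :=
    (hasSum_geometric_of_lt_one (by norm_num) (by norm_num)).mul_left _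
  have h7 : (D : ℝ) * (1 / 2) * (1 - 1 / 2)⁻¹ = D := by norm_num; ring
  rw [h7] at h6
  have h8 : ∀ i, ‖(b : ℝ) ^ m * ((a (i + m) : ℝ) / (b : ℝ) ^ (i + m + 1))‖ ≤
      (D : ℝ) * (1 / 2) * (1 / 2) ^ i := by
    intro i
    have h9 : (b : ℝ) ^ m * ((a (i + m) : ℝ) / (b : ℝ) ^ (i + m + 1)) =
        (a (i + m) : ℝ) / (b : ℝ) ^ (i + 1) := by
      have : (b : ℝ) ^ (i + m + 1) = (b : ℝ) ^ m * (b : ℝ) ^ (i + 1) := by
        rw [← pow_add]; congr 1; omega
      rw [this]
      field_simp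
    rw [h9, norm_div, norm_pow, Real.norm_eq_abs, Real.norm_eq_abs, abs_of_pos hb0]
    have h10 : |(a (i + m) : ℝ)| ≤ D := by exact_mod_cast h1 (i + m)
    have h11 : (2 : ℝ) ^ (i + 1) ≤ (b : ℝ) ^ (i + 1) := pow_le_pow_left₀ (by norm_num) hb2 _
    have h12 : (D : ℝ) * (1 / 2) * (1 / 2) ^ i = (D : ℝ) / 2 ^ (i + 1) := by
      rw [pow_succ, one_div, inv_pow]; field_simp
    rw [h12]
    exact div_le_div₀ (by positivity) h10 (by positivity) h11
  have h13 := tsum_of_norm_bounded h6 h8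
  rwa [h4.tsum_eq, Real.norm_eq_abs] at h13

/-- Let `x` be a real irrational algebraic number, `b ≥ 2` and `D` natural numbers.
(1) For every `ε > 0` there is `N₁` such that for ALL expansions `x = ∑ a_i b^(-i-1)` with integer
digits `|a_i| ≤ D` and all `N ≥ N₁`: every nondeterministic finite automaton (whose letters are
integers) which accepts the word `a_0 … a_(N-1)` and no other word of length `N` has at least
`N exp (-ε √(log N))` states.
(2) For all `δ > 0` and `C ≥ 0` there is `N₁` such that for ALL such expansions, all `N ≥ N₁` and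
all nondeterministic finite automata `M` with at most `N^(1-δ)` states: if `M` accepts a word
`d_0 … d_(N-1)` which differs in at most `C log N` places from `a_0 … a_(N-1)`, then it accepts at
least `exp (C (log N)^2)` words of length `N`. -/
theorem result (x : ℝ) (halg : IsAlgebraic ℚ x) (hirr : Irrational x) (b D : ℕ) (hb : 2 ≤ b) :
    (∀ ε : ℝ, 0 < ε → ∃ N₁ : ℕ, ∀ a : ℕ → ℤ, IsExpansion b D x a →
      ∀ (σ : Type) [Fintype σ] (M : NFA ℤ σ) (N : ℕ), N₁ ≤ N →
      (List.range N).map a ∈ M.accepts →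
      (∀ w ∈ M.accepts, w.length = N → w = (List.range N).map a) →
      (N : ℝ) * Real.exp (-(ε * √(Real.log N))) ≤ Fintype.card σ) ∧
    (∀ δ C : ℝ, 0 < δ → 0 ≤ C → ∃ N₁ : ℕ, ∀ a : ℕ → ℤ, IsExpansion b D x a →
      ∀ (σ : Type) [Fintype σ] (M : NFA ℤ σ) (N : ℕ), N₁ ≤ N →
      (Fintype.card σ : ℝ) ≤ (N : ℝ) ^ (1 - δ) →
      ∀ d : ℕ → ℤ, (((range N).filter fun i => d i ≠ a i).card : ℝ) ≤ C * Real.log N →
        (List.range N).map d ∈ M.accepts →
        ((⌈Real.exp (C * Real.log N ^ 2)⌉₊ : ℕ) : ℕ∞) ≤ numAccepted M N) := by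
  have key : ∀ ρ : ℝ, 0 < ρ → ρ ≤ 1 / 2 → ∃ N₀ : ℕ, ∀ a : ℕ → ℤ, IsExpansion b D x a →
      Pool.Agent.X1.NfaAlg.NoPer2 a (1 + ρ) (5 / 2) N₀ := by
    intro ρ h1 h2
    obtain ⟨N₀, hN₀⟩ := Pool.Agent.X1.NfaAlg.lin_noPer halg hirr hb (D : ℝ) ρ h1 h2
    exact ⟨N₀, fun a ha => hN₀ a (head b a) (fun m => rfl) (head_close hb ha)⟩
  constructor
  · intro ε hε
    obtain ⟨T, hT, h⟩ := Pool.Agent.X1.NfaAlg.aper_states_inf hε
    have hT2 : (2 : ℝ) ≤ T := by exact_mod_cast hT
    obtain ⟨N₀, hN₀⟩ := key (1 / (T : ℝ))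
      (by positivity) (div_le_div_of_nonneg_left (by norm_num) (by norm_num) hT2)
    obtain ⟨N₁, hN₁⟩ := h (5 / 2) N₀ (by norm_num)
    exact ⟨N₁, fun a ha σ _ M N hN hacc huniq => hN₁ ℤ σ a (hN₀ a ha) M N hN hacc huniq⟩
  · intro δ C hδ hC
    obtain ⟨T, hT, h⟩ := Pool.Agent.X1.NfaAlg.aper_words_inf hδ hC
    have hT2 : (2 : ℝ) ≤ T := by exact_mod_cast hT
    obtain ⟨N₀, hN₀⟩ := key (1 / (T : ℝ))
      (by positivity) (div_le_div_of_nonneg_left (by norm_num) (by norm_num) hT2)
    obtain ⟨N₁, hN₁⟩ := h (5 / 2) N₀ (by norm_num)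
    refine ⟨N₁, fun a ha σ _ M N hN hq d hd hacc => ?_⟩
    by_cases hfin : {w : List ℤ | w ∈ M.accepts ∧ w.length = N}.Finite
    · have h1 := (hN₁ ℤ σ a (hN₀ a ha) M N hN hq d hd hacc).resolve_left
        (Set.not_infinite.2 hfin)
      unfold numAccepted
      rw [← hfin.cast_ncard_eq]
      exact_mod_cast Nat.ceil_le.2 h1
    · unfold numAccepted
      rw [Set.Infinite.encard_eq hfin]
      exact le_top

end Pool.Agent.Results.MP_5b6025_nt.AutomataForAllExpansions
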