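import Pool.Agent.Results.MP_5b6025_nt.PolynomialMultiples
import Pool.Agent.X174.WinN

/-!
# Digits of `f(l) β + h(l)` for all algebraic irrational `β` at once and ALL `l` in windows around thin sequences

For every `d` there is `c > 0` such that for all `B ≥ 2`, `k ≥ 1`, every countable set `H` of real polynomials, every
sequence `v ≥ 1` of exponent of convergence at most `τ` and `θ < 1` there is ONE set `E` of Hausdorff dimension at most
`(1 - c / (2 k B^k log B) + τ) / (1 - θ)` such that for each `α > 0` outside `E`, ALL real algebraic irrational `β`, ALL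
`f ∈ ℤ[X]` with `1 ≤ deg f ≤ d` and `h ∈ H` with `deg h < deg f`, for all but finitely many `i` and ALL integers `l ≥ 1`
with `|l - α v_i| ≤ v_i ^ θ`, every block of `k` digits occurs infinitely often in `f(l) β + h(l)` in every base `b ≤ B`.

The number of exceptions is from the starting result `PolynomialMultiples`, the passage to windows from the starting
module `Pool.Agent.Y854.GM.Win`.
-/

set_option autoImplicit false

namespace Pool.Agent.Results.MP_5b6025_nt.BlocksInWindows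

open Polynomial
open Pool.Agent.X174 (winN cumN)

/-- the exponent of convergence of the sequence `v` is at most `τ` -/
def ExpLe (v : ℕ → ℝ) (τ : ℝ) : Prop := ∀ t : ℝ, τ < t → Summable (fun n : ℕ => (v n) ^ (-t))

/-- the `i`-th digit after the point of `y` in base `b` -/
noncomputable def digit (b : ℕ) (y : ℝ) (i : ℕ) : ℤ := ⌊y * (b : ℝ) ^ i⌋ % (b : ℤ)

/-- the digits of `y` at the places `p + 1, …, p + k` are `w 0, …, w (k - 1)` -/
def OccursAt (b k : ℕ) (w : Fin k → Fin b) (y : ℝ) (p : ℕ) : Prop :=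
  ∀ s : Fin k, digit b y (p + s + 1) = ((w s : ℕ) : ℤ)

/-- **Theorem.** For every `d` there is `c > 0` such that for all `B ≥ 2`, `k ≥ 1`, every countable set `H` of real
polynomials, every sequence `v ≥ 1` of exponent of convergence at most `τ ≥ 0` and every `θ < 1` there is a set `E` of
Hausdorff dimension at most `(1 - c / (2 k B^k log B) + τ) / (1 - θ)` such that for each `α > 0` outside `E`, all real
algebraic irrational `β`, all `f ∈ ℤ[X]` with `1 ≤ deg f ≤ d` and all `h ∈ H` with `deg h < deg f`, for all but finitely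
many `i` and ALL integers `l ≥ 1` with `|l - α v_i| ≤ v_i ^ θ`, in every base `2 ≤ b ≤ B` every block of `k` digits
occurs infinitely often in the expansion of `f(l) β + h(l)`. The sequences `v_i = (i + 1) ^ a` and `v_i = b ^ i` have
exponent of convergence at most `1 / a` and `0`. -/
theorem result :
    (∀ d : ℕ, ∃ c : ℝ, 0 < c ∧ ∀ B k : ℕ, 2 ≤ B → 1 ≤ k → ∀ H : Set ℝ[X], H.Countable →
      ∀ (v : ℕ → ℝ) (τ θ : ℝ), (∀ i, 1 ≤ v i) → 0 ≤ τ → ExpLe v τ → θ < 1 →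
      ∃ E : Set ℝ,
        dimH E ≤ ENNReal.ofReal ((1 - c / (2 * k * (B : ℝ) ^ k * Real.log B) + τ) / (1 - θ)) ∧
        ∀ α : ℝ, 0 < α → α ∉ E → ∀ β : ℝ, Irrational β → IsAlgebraic ℚ β →
          ∀ f : ℤ[X], 1 ≤ f.natDegree → f.natDegree ≤ d → ∀ h ∈ H, h.natDegree < f.natDegree →
            ∃ i₀ : ℕ, ∀ i : ℕ, i₀ ≤ i → ∀ l : ℕ, 1 ≤ l → |(l : ℝ) - α * v i| ≤ (v i) ^ θ →
              ∀ b : ℕ, 2 ≤ b → b ≤ B → ∀ w : Fin k → Fin b,
                {p : ℕ | OccursAt b k w (((f.eval (l : ℤ) : ℤ) : ℝ) * β + h.eval (l : ℝ)) p}.Infinite) ∧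
    (∀ a : ℝ, 0 < a → ExpLe (fun n : ℕ => ((n : ℝ) + 1) ^ a) (1 / a)) ∧
    (∀ b : ℝ, 1 < b → ExpLe (fun n : ℕ => b ^ n) 0) := by
  refine ⟨fun d => ?_, fun κ hκ => Pool.Agent.Y854.GM.expLe_pow κ hκ, fun b hb => Pool.Agent.Y854.GM.expLe_geom b hb⟩
  obtain ⟨c1, C, hc1, hC, hres⟩ := PolynomialMultiples.result d
  set c : ℝ := min c1 1 with hc
  have hc0 : 0 < c := lt_min hc1 (by norm_num)
  have hca : c ≤ c1 := min_le_left _ _
  have hcb : c ≤ 1 := min_le_right _ _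
  refine ⟨c, hc0, fun B k hB hk H hH v τ θ hv hτ hE hθ => ?_⟩
  have hBr : (2 : ℝ) ≤ B := by exact_mod_cast hB
  have hBp : (0 : ℝ) < B := by linarith
  have hkr : (1 : ℝ) ≤ k := by exact_mod_cast hk
  have hlogB : 1 / 2 ≤ Real.log B := by
    have h1 := Real.log_two_gt_d9
    have h2 := Real.log_le_log (by norm_num) hBr
    linarith
  have hBk : (2 : ℝ) ≤ (B : ℝ) ^ k := hBr.trans (le_self_pow₀ (by linarith) (by omega))
  set L : ℝ := 2 * k * (B : ℝ) ^ k * Real.log B with hL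
  have hL1 : 2 ≤ L := by
    rw [hL]
    have h1 : 2 ≤ 2 * (k : ℝ) := by linarith
    have h2 : 4 ≤ 2 * (k : ℝ) * (B : ℝ) ^ k := by nlinarith
    nlinarith
  have hLp : 0 < L := by linarith
  set e : ℝ := c / L with he
  have he0 : 0 < e := by positivity
  have he1 : e ≤ 1 / 2 := by
    rw [he, div_le_iff₀ hLp]
    linarith
  have key : ∀ β : ℝ, Irrational β → IsAlgebraic ℚ β → ∀ f : ℤ[X], 1 ≤ f.natDegree → f.natDegree ≤ d →
      ∀ h : ℝ[X], h.natDegree < f.natDegree → ∃ E : Set ℝ, dimH E ≤ ENNReal.ofReal ((1 - e + τ) / (1 - θ)) ∧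
        ∀ α : ℝ, 0 < α → α ∉ E → ∃ i₀ : ℕ, ∀ i : ℕ, i₀ ≤ i → ∀ l : ℕ, 1 ≤ l → |(l : ℝ) - α * v i| ≤ (v i) ^ θ →
          ¬ ∃ b : ℕ, 2 ≤ b ∧ b ≤ B ∧ ∃ w : Fin k → Fin b,
            {p : ℕ | OccursAt b k w (((f.eval (l : ℤ) : ℤ) : ℝ) * β + h.eval (l : ℝ)) p}.Finite := by
    intro β hβ hβa f hf1 hfd h hhf
    have hcnt := (hres β hβ hβa).1 f hf1 hfd h hhf
    obtain ⟨Bd, hBd, hcount⟩ := Pool.Agent.X174.cumN (fun l : ℕ => ∃ b : ℕ, 2 ≤ b ∧ b ≤ B ∧ ∃ w : Fin k → Fin b,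
        {p : ℕ | OccursAt b k w (((f.eval (l : ℤ) : ℤ) : ℝ) * β + h.eval (l : ℝ)) p}.Finite) (1 - e)
        (C * (B : ℝ) ^ (k + 1) * (3 * B)) (by linarith) (by positivity) B (fun K hK => by
      have hKB : (B : ℝ) ≤ K := by exact_mod_cast hK
      have hKp : (0 : ℝ) < K := by linarith
      have hfin : {l : ℕ | l < 2 * K + 1 ∧ ∃ b : ℕ, 2 ≤ b ∧ b ≤ B ∧ ∃ w : Fin k → Fin b,
          {p : ℕ | Pool.Agent.W226.MP.OccursAt b k w (Pool.Agent.TH869.LPD.seqv f h β l) p}.Finite}.Finite :=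
        (Set.finite_Iio (2 * K + 1)).subset fun m hm => hm.1
      have hsub : {l : ℕ | K < l ∧ l ≤ 2 * K ∧ ∃ b : ℕ, 2 ≤ b ∧ b ≤ B ∧ ∃ w : Fin k → Fin b,
          {p : ℕ | OccursAt b k w (((f.eval (l : ℤ) : ℤ) : ℝ) * β + h.eval (l : ℝ)) p}.Finite} ⊆
          {l : ℕ | l < 2 * K + 1 ∧ ∃ b : ℕ, 2 ≤ b ∧ b ≤ B ∧ ∃ w : Fin k → Fin b,
          {p : ℕ | Pool.Agent.W226.MP.OccursAt b k w (Pool.Agent.TH869.LPD.seqv f h β l) p}.Finite} := by
        rintro l ⟨h1, h2, h3⟩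
        exact ⟨by omega, h3⟩
      refine (Nat.cast_le.2 (Set.ncard_le_ncard hsub hfin)).trans ((hcnt (2 * K + 1) (by omega) B k hB hk).trans ?_)
      have hN : ((2 * K + 1 : ℕ) : ℝ) = 2 * K + 1 := by push_cast; ring
      rw [hN]
      suffices hs : (2 * (K : ℝ) + 1) * ((B : ℝ) / (2 * K + 1)) ^ (c1 / L) ≤ 3 * (B * (K : ℝ) ^ (1 - e)) by
        calc C * (B : ℝ) ^ (k + 1) * (2 * (K : ℝ) + 1) * ((B : ℝ) / (2 * K + 1)) ^ (c1 / L)
            = C * (B : ℝ) ^ (k + 1) * ((2 * (K : ℝ) + 1) * ((B : ℝ) / (2 * K + 1)) ^ (c1 / L)) := by ring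
          _ ≤ C * (B : ℝ) ^ (k + 1) * (3 * (B * (K : ℝ) ^ (1 - e))) :=
              mul_le_mul_of_nonneg_left hs (by positivity)
          _ = C * (B : ℝ) ^ (k + 1) * (3 * B) * (K : ℝ) ^ (1 - e) := by ring
      have hNp : (0 : ℝ) < 2 * K + 1 := by positivity
      have hq0 : (0 : ℝ) < (B : ℝ) / (2 * K + 1) := by positivity
      have hq1 : (B : ℝ) / (2 * K + 1) ≤ 1 := by
        rw [div_le_one hNp]
        linarith
      have h1 : ((B : ℝ) / (2 * K + 1)) ^ (c1 / L) ≤ ((B : ℝ) / (2 * K + 1)) ^ e :=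
        Real.rpow_le_rpow_of_exponent_ge hq0 hq1 (by
          rw [he]
          exact div_le_div_of_nonneg_right hca hLp.le)
      have h2 : ((B : ℝ) / (2 * K + 1)) ^ e ≤ B * (K : ℝ) ^ (-e) := by
        calc ((B : ℝ) / (2 * K + 1)) ^ e ≤ ((B : ℝ) / K) ^ e := by
              apply Real.rpow_le_rpow hq0.le _ he0.le
              exact div_le_div_of_nonneg_left hBp.le hKp (by linarith)
          _ = (B : ℝ) ^ e * (K : ℝ) ^ (-e) := by
              rw [Real.div_rpow hBp.le hKp.le, Real.rpow_neg hKp.le]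
              ring
          _ ≤ B * (K : ℝ) ^ (-e) := by
              apply mul_le_mul_of_nonneg_right _ (by positivity)
              calc (B : ℝ) ^ e ≤ (B : ℝ) ^ (1 : ℝ) :=
                    Real.rpow_le_rpow_of_exponent_le (by linarith) (by linarith)
                _ = B := Real.rpow_one _
      calc (2 * (K : ℝ) + 1) * ((B : ℝ) / (2 * K + 1)) ^ (c1 / L) ≤ (3 * K) * (B * (K : ℝ) ^ (-e)) := by
            apply mul_le_mul (by linarith) (h1.trans h2) (by positivity) (by positivity)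
        _ = 3 * (B * (K : ℝ) ^ (1 - e)) := by
            rw [sub_eq_add_neg, Real.rpow_add hKp, Real.rpow_one]
            ring)
    exact winN _ hv hτ hE (by linarith : 0 ≤ 1 - e) hθ Bd hBd hcount
  -- all at once
  have hAc : ({x : ℝ | IsAlgebraic ℚ x}).Countable := Algebraic.countable ℚ ℝ
  have hc1' : Countable {x : ℝ | IsAlgebraic ℚ x} := hAc.to_subtype
  have hc2' : Countable H := hH.to_subtype
  have hc3' : Countable ℤ[X] := by
    have h1 := Polynomial.cardinalMk_le_max (R := ℤ)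
    rw [← Cardinal.mk_le_aleph0_iff]
    refine h1.trans ?_
    simp
  have hall : ∀ q : {x : ℝ | IsAlgebraic ℚ x} × ℤ[X] × H, ∃ E : Set ℝ,
      dimH E ≤ ENNReal.ofReal ((1 - e + τ) / (1 - θ)) ∧
      (Irrational (q.1 : ℝ) → 1 ≤ q.2.1.natDegree → q.2.1.natDegree ≤ d → (q.2.2 : ℝ[X]).natDegree < q.2.1.natDegree →
        ∀ α : ℝ, 0 < α → α ∉ E → ∃ i₀ : ℕ, ∀ i : ℕ, i₀ ≤ i → ∀ l : ℕ, 1 ≤ l → |(l : ℝ) - α * v i| ≤ (v i) ^ θ →
          ¬ ∃ b : ℕ, 2 ≤ b ∧ b ≤ B ∧ ∃ w : Fin k → Fin b,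
            {p : ℕ | OccursAt b k w (((q.2.1.eval (l : ℤ) : ℤ) : ℝ) * q.1 + (q.2.2 : ℝ[X]).eval (l : ℝ)) p}.Finite) := by
    rintro ⟨⟨β, hβa⟩, f, ⟨h, hh⟩⟩
    by_cases hcond : Irrational β ∧ 1 ≤ f.natDegree ∧ f.natDegree ≤ d ∧ h.natDegree < f.natDegree
    · obtain ⟨h1, h2, h3, h4⟩ := hcond
      obtain ⟨E, hE1, hE2⟩ := key β h1 hβa f h2 h3 h h4
      exact ⟨E, hE1, fun _ _ _ _ => hE2⟩
    · refine ⟨∅, by simp, fun h1 h2 h3 h4 => ?_⟩
      exact absurd ⟨h1, h2, h3, h4⟩ hcond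
  choose Es hEs1 hEs2 using hall
  refine ⟨⋃ q, Es q, ?_, fun α hα hαE β hβ hβa f hf1 hfd h hh hhf => ?_⟩
  · rw [dimH_iUnion]
    exact iSup_le hEs1
  · obtain ⟨i₀, hi⟩ := hEs2 ⟨⟨β, hβa⟩, f, ⟨h, hh⟩⟩ hβ hf1 hfd hhf α hα (fun hm => hαE (Set.mem_iUnion.2 ⟨_, hm⟩))
    refine ⟨i₀, fun i hi1 l hl hw b hb hbB w => ?_⟩
    by_contra hcon
    rw [Set.not_infinite] at hcon
    exact hi i hi1 l hl hw ⟨b, hb, hbB, w, hcon⟩

end Pool.Agent.Results.MP_5b6025_nt.BlocksInWindows
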