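import Mathlib
import Pool.Agent.X121.UH.Fin

/-!
# One base for all algebraic irrational numbers of bounded degree and height

In all but few bases `b` of a short interval, all the real algebraic irrational numbers of degree at
most `D` and height at most `e ^ t` are simultaneously normal up to their first `(log b) ^ (1 / 7)`
digits, with a discrepancy of almost square root size, uniformly in `t` and in the number of digits.

The proof combines moments of high order (up to the number of digits), bounds for the exponential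
sums `∑_b e(x Q(b))` over the bases, where `Q` is an integral polynomial of large degree, which are
uniform in `x`, Liouville's inequality with explicit constants, and the union bound over the numbers.
-/

set_option autoImplicit false

open Real Polynomial

namespace Pool.Agent.Results.MP_5b6025_nt.UniformInHeight

/-- `x` is a real irrational algebraic number of degree at most `D` and height at most `H`: it is a
root of an irreducible integral polynomial of degree at most `D` whose coefficients are at most `H`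
in absolute value -/
def AlgLe (D : ℕ) (H : ℝ) (x : ℝ) : Prop :=
  Irrational x ∧ ∃ P : ℤ[X], Irreducible P ∧ P.natDegree ≤ D ∧ (∀ i, |(P.coeff i : ℝ)| ≤ H) ∧
    aeval x P = 0

/-- the number of `1 ≤ i ≤ N` such that the fractional part of `x b ^ i` lies in `[u, v)` -/
noncomputable def count (x : ℝ) (b N : ℕ) (u v : ℝ) : ℕ :=
  {i : ℕ | 1 ≤ i ∧ i ≤ N ∧ u ≤ Int.fract (x * (b : ℝ) ^ i) ∧ Int.fract (x * (b : ℝ) ^ i) < v}.ncard

lemma count_eq (x : ℝ) (b N : ℕ) (u v : ℝ) : count x b N u v =
    ((Finset.Icc 1 N).filter fun i => u ≤ Int.fract (x * (b : ℝ) ^ i) ∧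
      Int.fract (x * (b : ℝ) ^ i) < v).card := by
  unfold count
  rw [← Set.ncard_coe_finset]
  congr 1
  ext i
  simp only [Set.mem_ofPred_eq, Finset.coe_filter, Finset.mem_Icc]
  tauto

/-- **One base for all algebraic numbers of bounded degree and height.** For every `D` there is `C`
such that for every interval `(B, B + H]` of integers and every real `t ≥ 0`, all bases `b ≥ 2` in the
interval with at most `C e ^ (-t) H` exceptions have the following property: for *all* real irrational
algebraic numbers `x` of degree at most `D` and height at most `e ^ t`, for all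
`1 ≤ N ≤ (log H) ^ (1 / 7)` and all `0 ≤ u ≤ v ≤ 1`, the number of `1 ≤ i ≤ N` such that the
fractional part of `x b ^ i` lies in `[u, v)` is `(v - u) N` up to an error of at most
`C √(N (t + log (N + 1))) log (N + 1)`. -/
theorem result (D : ℕ) : ∃ C : ℝ, ∀ B H : ℕ, ∀ t : ℝ, 0 ≤ t →
    ({b : ℕ | 2 ≤ b ∧ B < b ∧ b ≤ B + H ∧ ¬ ∀ x : ℝ, AlgLe D (exp t) x →
      ∀ N : ℕ, 1 ≤ N → (N : ℝ) ≤ log H ^ (1 / 7 : ℝ) → ∀ u v : ℝ, 0 ≤ u → u ≤ v → v ≤ 1 →
        |(count x b N u v : ℝ) - (v - u) * N| ≤
          C * (√(N * (t + log (N + 1))) * log (N + 1))}.ncard : ℝ) ≤ C * exp (-t) * H := by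
  classical
  obtain ⟨C, hC⟩ := Pool.Agent.X121.UH.alg_main D
  refine ⟨C, fun B H t ht => ?_⟩
  rcases Nat.eq_zero_or_pos H with rfl | hB
  · have h1 : {b : ℕ | 2 ≤ b ∧ B < b ∧ b ≤ B + 0 ∧ ¬ ∀ x : ℝ, AlgLe D (exp t) x →
        ∀ N : ℕ, 1 ≤ N → (N : ℝ) ≤ log (0 : ℕ) ^ (1 / 7 : ℝ) → ∀ u v : ℝ, 0 ≤ u → u ≤ v → v ≤ 1 →
        |(count x b N u v : ℝ) - (v - u) * N| ≤
          C * (√(N * (t + log (N + 1))) * log (N + 1))} = ∅ := by
      ext b
      simp only [Set.mem_ofPred_eq, Set.mem_empty_iff_false, iff_false]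
      rintro ⟨h2, h3, h4, -⟩
      omega
    rw [h1]
    simp
  · refine le_trans ?_ (hC H B hB t ht)
    have hsub : {b : ℕ | 2 ≤ b ∧ B < b ∧ b ≤ B + H ∧ ¬ ∀ x : ℝ, AlgLe D (exp t) x →
        ∀ N : ℕ, 1 ≤ N → (N : ℝ) ≤ log H ^ (1 / 7 : ℝ) → ∀ u v : ℝ, 0 ≤ u → u ≤ v → v ≤ 1 →
        |(count x b N u v : ℝ) - (v - u) * N| ≤
          C * (√(N * (t + log (N + 1))) * log (N + 1))} ⊆
        ((((Finset.Icc 1 H).filter fun b => ∃ x, Pool.Agent.X121.UH.AlgLe D (Real.exp t) x ∧
        ∃ N : ℕ, 1 ≤ N ∧ (N : ℝ) ≤ (Real.log H) ^ (1 / 7 : ℝ) ∧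
        Pool.Agent.X121.UH.Bad x (C * (√(N * (t + Real.log (N + 1))) * Real.log (N + 1))) N
          (b + B)).image (fun b => b + B) : Finset ℕ) : Set ℕ) := by
      rintro b ⟨h2, h3, h3', h4⟩
      push Not at h4
      obtain ⟨x, hx, N, h5, h6, u, v, hu, huv, hv, h8⟩ := h4
      rw [Finset.mem_coe, Finset.mem_image]
      refine ⟨b - B, ?_, by omega⟩
      rw [Finset.mem_filter, Finset.mem_Icc]
      refine ⟨⟨by omega, by omega⟩, x, hx, N, h5, h6, ?_⟩
      rw [Nat.sub_add_cancel h3.le]
      refine ⟨u, v, hu, huv, hv, ?_⟩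
      rw [← count_eq]
      exact h8
    have h9 := Set.ncard_le_ncard hsub (Finset.finite_toSet _)
    rw [Set.ncard_coe_finset] at h9
    exact_mod_cast h9.trans Finset.card_image_le

end Pool.Agent.Results.MP_5b6025_nt.UniformInHeight
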